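import Pool.Agent.W2helper8.ZQ.Stm
import Pool.Agent.TH321.GF.AQ

/-!
# Project ZQ: zeta and its partial sum on the critical line
-/

set_option autoImplicit false

namespace Pool.Agent.W2helper98.ZQ

open Finset Filter Topology MeasureTheory Complex
open Pool.Agent.W2helper8.ZQ

theorem z_eq (t : ℝ) : Pool.Agent.TH612.GS.z t = riemannZeta (1 / 2 + t * I) := by
  rw [Pool.Agent.TH612.GS.z, mul_comm]

theorem term_eq (n : ℕ) (hn : 1 ≤ n) (t : ℝ) :
    ((1 / Real.sqrt n : ℝ) : ℂ) * e (-(t * Real.log n)) =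
      (n : ℂ) ^ (-(1 / 2 + I * t : ℂ)) := by
  have hn0 : (n : ℂ) ≠ 0 := by
    exact_mod_cast (by omega : n ≠ 0)
  have hnr : (0 : ℝ) < n := by exact_mod_cast hn
  have h1 : ((1 / Real.sqrt n : ℝ) : ℂ) = Complex.exp (-(1 / 2) * Real.log n) := by
    have h2 : (1 / Real.sqrt n : ℝ) = Real.exp (-(1 / 2) * Real.log n) := by
      rw [Real.sqrt_eq_rpow, Real.rpow_def_of_pos hnr, one_div, ← Real.exp_neg]
      congr 1
      ring
    rw [h2]
    push_cast
    rfl
  rw [h1, e, ← Complex.exp_add, Complex.cpow_def_of_ne_zero hn0, ← Complex.natCast_log]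
  congr 1
  push_cast
  ring

theorem DN_eq (N : ℕ) (t : ℝ) : DN N t = Pool.Agent.TH612.GS.PN N t := by
  rw [DN, Pool.Agent.TH612.GS.PN, Pool.Agent.TH612.GS.zN]
  exact Finset.sum_congr rfl fun n hn => term_eq n (Finset.mem_Icc.mp hn).1 t

theorem p_apx : S_APX := by
  refine ⟨17, by norm_num, fun T hT t ht => ?_⟩
  have hX1 : (4 * T : ℝ) ≤ Ns T := Nat.le_ceil _
  have hX2 : (Ns T : ℝ) < 4 * T + 1 := Nat.ceil_lt_add_one (by linarith)
  have hX : 1 ≤ Ns T := by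
    have : (1 : ℝ) ≤ Ns T := by linarith
    exact_mod_cast this
  have h := Pool.Agent.TH321.GF.AQ_pw t (Ns T) hX (by linarith [ht.1]) (by linarith [ht.2])
  rw [z_eq, ← DN_eq] at h
  refine h.trans ?_
  have hs0 : 1 ≤ Real.sqrt (Ns T) := Real.one_le_sqrt.mpr (by exact_mod_cast hX)
  have hs1 : Real.sqrt (Ns T) ≤ ((Ns T : ℝ) + 1) / 2 := by
    have h1 := Real.sq_sqrt (Nat.cast_nonneg (α := ℝ) (Ns T))
    nlinarith [sq_nonneg (Real.sqrt (Ns T) - 1)]
  have ht1 : 0 < 1 + t := by linarith [ht.1]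
  have h1 : 3 * Real.sqrt (Ns T) / (1 + t) ≤ 15 := by
    rw [div_le_iff₀ ht1]
    linarith [ht.1]
  have h2 : 3 / (2 * Real.sqrt (Ns T)) ≤ 3 / 2 := by
    apply div_le_div_of_nonneg_left (by norm_num) (by norm_num)
    linarith
  linarith

end Pool.Agent.W2helper98.ZQ
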